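import Pool.Agent.W_MP_5f6f90_h66.Good
import Pool.Agent.W_MP_5f6f90_co_helper62.Reduction

set_option autoImplicit false

namespace Pool.Agent.QueensAll

open Pool.Agent.W_MP_5f6f90_co_helper62

/-- the construction for a given `p` -/
theorem good_of_p (p n : ℕ) (hp : 0 < p) (h1 : Nat.Coprime n (p + 1))
    (h2 : Nat.Coprime n (2 * p + 1)) (hg : 2 * Nat.gcd p n ≤ p)
    (hbig : (p + 1) * (p * (2 * p + 1) + 3 * (p * (2 * p + 1))) * p ≤ n) : Good n := by
  have hg0 : 0 < Nat.gcd p n := Nat.gcd_pos_of_pos_left _ hp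
  obtain ⟨r, hr⟩ := Nat.gcd_dvd_left p n
  obtain ⟨N, hN⟩ := Nat.gcd_dvd_right p n
  have hcop : Nat.Coprime r N := by
    have h := Nat.coprime_div_gcd_div_gcd hg0
    have e1 : p / Nat.gcd p n = r := Nat.div_eq_of_eq_mul_right hg0 hr
    have e2 : n / Nat.gcd p n = N := Nat.div_eq_of_eq_mul_right hg0 hN
    rwa [e1, e2] at h
  set g := Nat.gcd p n with hgdef
  have hgp : g ≤ p := by omega
  have hr2 : 2 ≤ r := by
    by_contra hlt
    have : r ≤ 1 := by omega
    have : g * r ≤ g * 1 := Nat.mul_le_mul_left _ this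
    omega
  have hNbig : (p + 1) * (g * (2 * p + 1) + 3 * (p * (2 * p + 1))) ≤ N := by
    have a1 : (p + 1) * (g * (2 * p + 1) + 3 * (p * (2 * p + 1))) * g ≤
        (p + 1) * (p * (2 * p + 1) + 3 * (p * (2 * p + 1))) * p := by
      apply Nat.mul_le_mul _ hgp
      apply Nat.mul_le_mul_left
      apply Nat.add_le_add_right
      exact Nat.mul_le_mul_right _ hgp
    have a2 : (p + 1) * (g * (2 * p + 1) + 3 * (p * (2 * p + 1))) * g ≤ N * g := by
      calc _ ≤ _ := a1
        _ ≤ n := hbig
        _ = N * g := by rw [hN]; ring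
    exact Nat.le_of_mul_le_mul_right a2 hg0
  let D : Dat :=
    { p := p, q := (p : ℤ) + 1, d := 2 * (p : ℤ) + 1, g := g, r := r, N := N, n := n
      hp := by exact_mod_cast hp
      hq := rfl
      hd := rfl
      hg := by exact_mod_cast hg0
      hr := by exact_mod_cast hr2
      hpr := by exact_mod_cast hr
      hn := by rw [mul_comm]; exact_mod_cast hN
      hN := by exact_mod_cast hNbig }
  have hq : IsCoprime D.q D.n := by
    have := (Nat.isCoprime_iff_coprime.2 h1).symm
    push_cast at this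
    exact this
  have hdn : IsCoprime D.d D.n := by
    have := (Nat.isCoprime_iff_coprime.2 h2).symm
    push_cast at this
    exact this
  have hrN : IsCoprime D.r D.N := Nat.isCoprime_iff_coprime.2 hcop
  exact D.good hq hdn hrN

theorem Good.col {n : ℕ} (h : Good n) : Col n := by
  obtain ⟨C, h1, h2⟩ := h
  refine ⟨fun x y => (C x y).toNat, ?_, ?_⟩
  · intro x y hx hy
    obtain ⟨a1, a2⟩ := h1 x y (by omega) (by omega) (by omega) (by omega)
    simp only []
    omega
  · intro x y x' y' hx hy hx' hy' hC hcase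
    obtain ⟨a1, a2⟩ := h1 x y (by omega) (by omega) (by omega) (by omega)
    obtain ⟨b1, b2⟩ := h1 x' y' (by omega) (by omega) (by omega) (by omega)
    simp only [] at hC
    have := h2 x y x' y' (by omega) (by omega) (by omega) (by omega) (by omega) (by omega)
      (by omega) (by omega) (by omega) (by omega)
    omega

theorem col_30 (n : ℕ) (hn : 10 ^ 9 ≤ n) (h : Nat.Coprime n (5 * 31 * 61)) : Col n := by
  apply Good.col
  have h5 : Nat.Coprime n 5 := Nat.Coprime.coprime_dvd_right (by norm_num) h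
  have hg : Nat.gcd 30 n ≤ 6 := by
    have e : Nat.gcd 30 n ∣ 6 := by
      have a1 : Nat.gcd 30 n ∣ 6 * 5 := Nat.gcd_dvd_left 30 n
      have a2 : Nat.Coprime (Nat.gcd 30 n) 5 :=
        Nat.Coprime.coprime_dvd_left (Nat.gcd_dvd_right 30 n) h5
      exact a2.dvd_of_dvd_mul_right a1
    exact Nat.le_of_dvd (by norm_num) e
  refine good_of_p 30 n (by norm_num) ?_ ?_ (by omega) (le_trans (by norm_num) hn)
  · exact Nat.Coprime.coprime_dvd_right (by norm_num) h
  · exact Nat.Coprime.coprime_dvd_right (by norm_num) h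

theorem col_78 (n : ℕ) (hn : 10 ^ 9 ≤ n) (h : Nat.Coprime n (13 * 79 * 157)) : Col n := by
  apply Good.col
  have h13 : Nat.Coprime n 13 := Nat.Coprime.coprime_dvd_right (by norm_num) h
  have hg : Nat.gcd 78 n ≤ 6 := by
    have e : Nat.gcd 78 n ∣ 6 := by
      have a1 : Nat.gcd 78 n ∣ 6 * 13 := Nat.gcd_dvd_left 78 n
      have a2 : Nat.Coprime (Nat.gcd 78 n) 13 :=
        Nat.Coprime.coprime_dvd_left (Nat.gcd_dvd_right 78 n) h13
      exact a2.dvd_of_dvd_mul_right a1
    exact Nat.le_of_dvd (by norm_num) e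
  refine good_of_p 78 n (by norm_num) ?_ ?_ (by omega) (le_trans (by norm_num) hn)
  · exact Nat.Coprime.coprime_dvd_right (by norm_num) h
  · exact Nat.Coprime.coprime_dvd_right (by norm_num) h

theorem main : ∃ n₀ : ℕ, ∀ n : ℕ, n₀ ≤ n → Col n :=
  reduction (10 ^ 9) col_30 col_78

end Pool.Agent.QueensAll
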