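import Pool.Agent.W_MP_5f6f90_h66.Wrap

set_option autoImplicit false

namespace Pool.Agent.QueensAll

/-- `Q_n` has a proper colouring with `n` colours (integer coordinates `0, …, n - 1`). -/
def Good (n : ℤ) : Prop :=
  ∃ C : ℤ → ℤ → ℤ,
    (∀ x y, 0 ≤ x → x < n → 0 ≤ y → y < n → 0 ≤ C x y ∧ C x y < n) ∧
    ∀ x y x' y', 0 ≤ x → x < n → 0 ≤ y → y < n → 0 ≤ x' → x' < n → 0 ≤ y' → y' < n →
      C x y = C x' y' → (x = x' ∨ y = y' ∨ x - y = x' - y' ∨ x + y = x' + y') →
      x = x' ∧ y = y'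

namespace Dat

variable (D : Dat)

theorem ph_periodic {c a k k' i : ℤ} (h : D.n ∣ k - k') : D.ph c a k i = D.ph c a k' i := by
  obtain ⟨t, ht⟩ := h
  have e : k = k' + (t * D.g) * D.N := by
    have := D.hn
    rw [this] at ht
    linear_combination ht
  unfold ph
  rw [e, phi_shift D.N_pos]
  have hr := phi_range (N := D.N) (B := D.B c a) (s := D.s c a) D.hg k' i
  have e2 : phi D.g D.N (D.B c a) (D.s c a) k' i - t * D.g =
      phi D.g D.N (D.B c a) (D.s c a) k' i + (-t) * D.g := by ring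
  rw [e2, Int.add_mul_emod_self_right]
  exact Int.emod_eq_of_lt hr.1 hr.2

theorem emod_eq_of_dvd {a b n : ℤ} (h : n ∣ a - b) : a % n = b % n :=
  Int.ModEq.symm ((Int.modEq_iff_dvd).2 h)

/-- a cell `(X, Y)` is described by `(k, i, c)` -/
structure Cell (X Y k i c : ℤ) : Prop where
  hX : (D.q * k) % D.n = X
  hY : (D.p * k + c + i * D.d) % D.n = Y
  hi0 : 0 ≤ i
  hi : i < D.g
  hc : D.g ∣ c

variable {D}

theorem Cell.X_eq {X Y k i c X' Y' k' i' : ℤ} (h : D.Cell X Y k i c) (h' : D.Cell X' Y' k' i' c)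
    (hk : D.n ∣ k - k') : X = X' := by
  rw [← h.hX, ← h'.hX]
  apply emod_eq_of_dvd
  have e : D.q * k - D.q * k' = D.q * (k - k') := by ring
  rw [e]; exact Dvd.dvd.mul_left hk _

theorem Cell.Y_eq {X Y k i c X' Y' k' : ℤ} (h : D.Cell X Y k i c) (h' : D.Cell X' Y' k' i c)
    (hk : D.n ∣ k - k') : Y = Y' := by
  rw [← h.hY, ← h'.hY]
  apply emod_eq_of_dvd
  have e : D.p * k + c + i * D.d - (D.p * k' + c + i * D.d) = D.p * (k - k') := by ring
  rw [e]; exact Dvd.dvd.mul_left hk _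

theorem Cell.congr {X Y k i c k' : ℤ} (h : D.Cell X Y k i c) (hk : D.n ∣ k - k') :
    D.Cell X Y k' i c := by
  refine ⟨?_, ?_, h.hi0, h.hi, h.hc⟩
  · rw [← h.hX]
    apply emod_eq_of_dvd
    have e : D.q * k' - D.q * k = -(D.q * (k - k')) := by ring
    rw [e, dvd_neg]; exact Dvd.dvd.mul_left hk _
  · rw [← h.hY]
    apply emod_eq_of_dvd
    have e : D.p * k' + c + i * D.d - (D.p * k + c + i * D.d) = -(D.p * (k - k')) := by ring
    rw [e, dvd_neg]; exact Dvd.dvd.mul_left hk _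

theorem Cell.dvd_X {X Y k i c : ℤ} (h : D.Cell X Y k i c) : D.n ∣ D.q * k - X := by
  rw [← h.hX]
  exact Int.dvd_self_sub_emod

theorem Cell.dvd_Y {X Y k i c : ℤ} (h : D.Cell X Y k i c) :
    D.n ∣ D.p * k + c + i * D.d - Y := by
  rw [← h.hY]
  exact Int.dvd_self_sub_emod

theorem cell_row {X Y k i c X' Y' k' i' a : ℤ} (hq : IsCoprime D.q D.n)
    (h : D.Cell X Y k i c) (h' : D.Cell X' Y' k' i' c)
    (hph : D.ph c a k i = D.ph c a k' i') (hXX : X = X') : Y = Y' := by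
  have h1 : D.n ∣ D.q * (k - k') := by
    have := dvd_sub h.dvd_X h'.dvd_X
    have e : D.q * k - X - (D.q * k' - X') = D.q * (k - k') := by rw [hXX]; ring
    rwa [e] at this
  have h2 : D.n ∣ k - k' := hq.symm.dvd_of_dvd_mul_left h1
  rw [← D.ph_periodic (c := c) (a := a) (i := i') h2] at hph
  have h3 := phi_row (D.s_gap c a) D.N_pos h.hi0 h.hi h'.hi0 h'.hi hph
  subst h3
  exact h.Y_eq h' h2

theorem cell_col {X Y k i c X' Y' k' i' a : ℤ} (hrN : IsCoprime D.r D.N)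
    (h : D.Cell X Y k i c) (h' : D.Cell X' Y' k' i' c)
    (hph : D.ph c a k i = D.ph c a k' i') (hYY : Y = Y') : X = X' := by
  have h1 : D.n ∣ D.p * (k - k') + (i - i') * D.d := by
    have := dvd_sub h.dvd_Y h'.dvd_Y
    have e : D.p * k + c + i * D.d - Y - (D.p * k' + c + i' * D.d - Y') =
      D.p * (k - k') + (i - i') * D.d := by rw [hYY]; ring
    rwa [e] at this
  have hgn : D.g ∣ D.n := ⟨D.N, by rw [D.hn]; ring⟩
  have hgp : D.g ∣ D.p := ⟨D.r, D.hpr⟩
  have hg := D.hg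
  have h2 : D.g ∣ i - i' := by
    have a1 := hgn.trans h1
    have a2 : D.g ∣ D.p * (k - k') + (i - i') * (2 * D.p) :=
      dvd_add (Dvd.dvd.mul_right hgp _) (Dvd.dvd.mul_left (Dvd.dvd.mul_left hgp _) _)
    have a3 := dvd_sub a1 a2
    have e : D.p * (k - k') + (i - i') * D.d - (D.p * (k - k') + (i - i') * (2 * D.p)) = i - i' := by
      rw [D.hd]; ring
    rwa [e] at a3
  have h3 : i - i' = 0 := by
    apply Int.eq_zero_of_abs_lt_dvd h2
    have := h.hi0; have := h.hi; have := h'.hi0; have := h'.hi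
    rw [abs_lt]; constructor <;> omega
  have h4 : i = i' := by omega
  subst h4
  have h5 : D.N ∣ k - k' := by
    rw [sub_self, zero_mul, add_zero, D.hn, D.hpr] at h1
    have e : D.g * D.r * (k - k') = D.r * (k - k') * D.g := by ring
    rw [e] at h1
    have := Int.dvd_of_mul_dvd_mul_right hg.ne' h1
    exact hrN.symm.dvd_of_dvd_mul_left this
  obtain ⟨j, hj⟩ := h5
  have e : k = k' + j * D.N := by linear_combination hj
  have h6 : D.g ∣ j := by
    unfold ph at hph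
    rw [e, phi_shift D.N_pos] at hph
    set v := phi D.g D.N (D.B c a) (D.s c a) k' i
    have hv : v % D.g = v := by
      have hr := phi_range (N := D.N) (B := D.B c a) (s := D.s c a) D.hg k' i
      exact Int.emod_eq_of_lt hr.1 hr.2
    have h7 : (v - j) % D.g = v % D.g := by rw [hph, hv]
    have h8 : D.g ∣ v - (v - j) := Int.ModEq.dvd h7
    have e9 : v - (v - j) = j := by ring
    rwa [e9] at h8
  obtain ⟨t, ht⟩ := h6
  apply h.X_eq h'
  exact ⟨t, by rw [hj, ht, D.hn]; ring⟩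

theorem cell_diag_lt {X Y k i c X' Y' k' i' a : ℤ} (hNX : D.NX c a)
    (h : D.Cell X Y k i c) (h' : D.Cell X' Y' k' i' c) (hii : i' < i)
    (hph : D.ph c a k i = D.ph c a k' i') : X - Y ≠ X' - Y' := by
  intro hXY
  have h1 : D.n ∣ k - (k' + (i - i') * D.d) := by
    have := dvd_sub (dvd_sub h.dvd_X h.dvd_Y) (dvd_sub h'.dvd_X h'.dvd_Y)
    have e : D.q * k - X - (D.p * k + c + i * D.d - Y) -
        (D.q * k' - X' - (D.p * k' + c + i' * D.d - Y')) = k - (k' + (i - i') * D.d) := by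
      rw [D.hq]; linear_combination -hXY
    rwa [e] at this
  have hc := h.congr h1
  rw [D.ph_periodic h1] at hph
  apply D.diag_conflict hNX h'.hi0 hii h.hi rfl hph
  rw [hc.hX, hc.hY, h'.hX, h'.hY, hXY]

theorem cell_anti_lt {X Y k i c X' Y' k' i' a : ℤ} (hdn : IsCoprime D.d D.n) (hNX : D.NX c a)
    (h : D.Cell X Y k i c) (h' : D.Cell X' Y' k' i' c) (hii : i' < i)
    (hph : D.ph c a k i = D.ph c a k' i') : X + Y ≠ X' + Y' := by
  intro hXY
  have h1 : D.n ∣ D.d * (k' - (k + (i - i'))) := by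
    have := dvd_sub (dvd_add h'.dvd_X h'.dvd_Y) (dvd_add h.dvd_X h.dvd_Y)
    have e : D.q * k' - X' + (D.p * k' + c + i' * D.d - Y') -
        (D.q * k - X + (D.p * k + c + i * D.d - Y)) = D.d * (k' - (k + (i - i'))) := by
      rw [D.hq, D.hd]; linear_combination hXY
    rwa [e] at this
  have h2 : D.n ∣ k' - (k + (i - i')) := hdn.symm.dvd_of_dvd_mul_left h1
  have hc := h'.congr h2
  rw [D.ph_periodic (k := k') (i := i') h2] at hph
  apply D.anti_conflict hNX h'.hi0 hii h.hi rfl hph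
  rw [h.hX, h.hY, hc.hX, hc.hY, hXY]

theorem cell_main {X Y k i c X' Y' k' i' a : ℤ} (hq : IsCoprime D.q D.n)
    (hdn : IsCoprime D.d D.n) (hrN : IsCoprime D.r D.N) (hNX : D.NX c a)
    (h : D.Cell X Y k i c) (h' : D.Cell X' Y' k' i' c)
    (hph : D.ph c a k i = D.ph c a k' i')
    (hcase : X = X' ∨ Y = Y' ∨ X - Y = X' - Y' ∨ X + Y = X' + Y') : X = X' ∧ Y = Y' := by
  rcases hcase with hX | hY | hD | hA
  · exact ⟨hX, cell_row hq h h' hph hX⟩
  · exact ⟨cell_col hrN h h' hph hY, hY⟩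
  · rcases lt_trichotomy i i' with hlt | heq | hgt
    · exact absurd hD.symm (cell_diag_lt hNX h' h hlt hph.symm)
    · subst heq
      have h1 : D.n ∣ k - k' := by
        have := dvd_sub (dvd_sub h.dvd_X h.dvd_Y) (dvd_sub h'.dvd_X h'.dvd_Y)
        have e : D.q * k - X - (D.p * k + c + i * D.d - Y) -
            (D.q * k' - X' - (D.p * k' + c + i * D.d - Y')) = k - k' := by
          rw [D.hq]; linear_combination -hD
        rwa [e] at this
      exact ⟨h.X_eq h' h1, h.Y_eq h' h1⟩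
    · exact absurd hD (cell_diag_lt hNX h h' hgt hph)
  · rcases lt_trichotomy i i' with hlt | heq | hgt
    · exact absurd hA.symm (cell_anti_lt hdn hNX h' h hlt hph.symm)
    · subst heq
      have h1 : D.n ∣ D.d * (k - k') := by
        have := dvd_sub (dvd_add h.dvd_X h.dvd_Y) (dvd_add h'.dvd_X h'.dvd_Y)
        have e : D.q * k - X + (D.p * k + c + i * D.d - Y) -
            (D.q * k' - X' + (D.p * k' + c + i * D.d - Y')) = D.d * (k - k') := by
          rw [D.hq, D.hd]; linear_combination -hA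
        rwa [e] at this
      have h2 : D.n ∣ k - k' := hdn.symm.dvd_of_dvd_mul_left h1
      exact ⟨h.X_eq h' h2, h.Y_eq h' h2⟩
    · exact absurd hA (cell_anti_lt hdn hNX h h' hgt hph)

theorem exists_cell (hq : IsCoprime D.q D.n) {X Y : ℤ} (hX0 : 0 ≤ X) (hX : X < D.n)
    (hY0 : 0 ≤ Y) (hY : Y < D.n) :
    ∃ k i c, D.Cell X Y k i c ∧ 0 ≤ c ∧ c < D.n := by
  obtain ⟨u, v, huv⟩ := hq
  have hn := D.n_pos
  have hgn : D.g ∣ D.n := ⟨D.N, by rw [D.hn]; ring⟩
  have hgp : D.g ∣ D.p := ⟨D.r, D.hpr⟩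
  set k := u * X
  set w := Y - D.p * k
  set i := w % D.g
  have hi0 : 0 ≤ i := Int.emod_nonneg _ D.hg.ne'
  have hi : i < D.g := Int.emod_lt_of_pos _ D.hg
  refine ⟨k, i, (w - i * D.d) % D.n, ⟨?_, ?_, hi0, hi, ?_⟩, Int.emod_nonneg _ hn.ne',
    Int.emod_lt_of_pos _ hn⟩
  · have e : X = X % D.n := (Int.emod_eq_of_lt hX0 hX).symm
    refine Eq.trans (emod_eq_of_dvd ?_) e.symm
    exact ⟨-(v * X), by simp only [k]; linear_combination X * huv⟩
  · have e : Y = Y % D.n := (Int.emod_eq_of_lt hY0 hY).symm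
    refine Eq.trans (emod_eq_of_dvd ?_) e.symm
    have h1 : D.n ∣ (w - i * D.d) - (w - i * D.d) % D.n := Int.dvd_self_sub_emod
    have e2 : D.p * k + (w - i * D.d) % D.n + i * D.d - Y =
        -((w - i * D.d) - (w - i * D.d) % D.n) := by
      simp only [w]; ring
    rw [e2, dvd_neg]; exact h1
  · have h1 : D.g ∣ w - i := Int.dvd_self_sub_emod
    have h2 : D.g ∣ w - i * D.d := by
      have e : w - i * D.d = (w - i) - (2 * i) * D.p := by rw [D.hd]; ring
      rw [e]; exact dvd_sub h1 (Dvd.dvd.mul_left hgp _)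
    have h3 : D.n ∣ (w - i * D.d) - (w - i * D.d) % D.n := Int.dvd_self_sub_emod
    have h4 := dvd_sub h2 (hgn.trans h3)
    have e : w - i * D.d - (w - i * D.d - (w - i * D.d) % D.n) = (w - i * D.d) % D.n := by ring
    rwa [e] at h4

open Classical in
/-- chosen level -/
noncomputable def lev (D : Dat) (c : ℤ) : ℤ := if D.NX c 0 then 0 else 1

theorem lev_spec (D : Dat) (c : ℤ) : D.NX c (D.lev c) := by
  unfold lev
  split_ifs with h
  · exact h
  · exact (D.exists_level c).resolve_left h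

theorem good (D : Dat) (hq : IsCoprime D.q D.n) (hdn : IsCoprime D.d D.n)
    (hrN : IsCoprime D.r D.N) : Good D.n := by
  classical
  have hex : ∀ X Y : ℤ, ∃ t : ℤ × ℤ × ℤ, 0 ≤ X → X < D.n → 0 ≤ Y → Y < D.n →
      D.Cell X Y t.1 t.2.1 t.2.2 ∧ 0 ≤ t.2.2 ∧ t.2.2 < D.n := by
    intro X Y
    by_cases h : 0 ≤ X ∧ X < D.n ∧ 0 ≤ Y ∧ Y < D.n
    · obtain ⟨k, i, c, h1⟩ := exists_cell hq h.1 h.2.1 h.2.2.1 h.2.2.2
      exact ⟨(k, i, c), fun _ _ _ _ => h1⟩
    · exact ⟨0, fun a b c d => absurd ⟨a, b, c, d⟩ h⟩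
  choose T hT using hex
  have hgn : D.g ∣ D.n := ⟨D.N, by rw [D.hn]; ring⟩
  refine ⟨fun X Y => (T X Y).2.2 + D.ph (T X Y).2.2 (D.lev (T X Y).2.2) (T X Y).1 (T X Y).2.1,
    ?_, ?_⟩
  · intro x y a1 a2 a3 a4
    obtain ⟨hc, h0, h1⟩ := hT x y a1 a2 a3 a4
    have hr := phi_range (N := D.N) (B := D.B (T x y).2.2 (D.lev (T x y).2.2))
      (s := D.s (T x y).2.2 (D.lev (T x y).2.2)) D.hg (T x y).1 (T x y).2.1
    obtain ⟨u, hu⟩ := hc.hc
    obtain ⟨v, hv⟩ := hgn
    have hg := D.hg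
    have h2 : (T x y).2.2 + D.g ≤ D.n := by
      rw [hu, hv] at h1 ⊢
      have : u < v := lt_of_mul_lt_mul_left h1 hg.le
      nlinarith
    unfold ph
    constructor
    · have := hr.1; simp only []; omega
    · have := hr.2; simp only []; omega
  · intro x y x' y' a1 a2 a3 a4 b1 b2 b3 b4 hC hcase
    obtain ⟨hc, h0, h1⟩ := hT x y a1 a2 a3 a4
    obtain ⟨hc', h0', h1'⟩ := hT x' y' b1 b2 b3 b4
    simp only [] at hC
    generalize T x y = t at *
    generalize T x' y' = t' at *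
    obtain ⟨k, i, c⟩ := t
    obtain ⟨k', i', c'⟩ := t'
    simp only [] at *
    have hr := phi_range (N := D.N) (B := D.B c (D.lev c)) (s := D.s c (D.lev c)) D.hg k i
    have hr' := phi_range (N := D.N) (B := D.B c' (D.lev c')) (s := D.s c' (D.lev c')) D.hg k' i'
    have e1 : D.g ∣ c - c' := dvd_sub hc.hc hc'.hc
    have e2 : c - c' = 0 := by
      apply Int.eq_zero_of_abs_lt_dvd e1
      unfold ph at hC
      rw [abs_lt]; constructor <;> omega
    have e3 : c = c' := by omega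
    subst e3
    have hph : D.ph c (D.lev c) k i = D.ph c (D.lev c) k' i' := by omega
    exact cell_main hq hdn hrN (D.lev_spec c) hc hc' hph hcase

end Dat

end Pool.Agent.QueensAll
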