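import Mathlib

set_option autoImplicit false

/-!
# Queens graph colouring: the local pattern

`p > 0`, `d = 2 p + 1`.  `kap p d A i` is the least integer `k` with `A ≤ p k + i d`.
-/

namespace Pool.Agent.QueensAll

/-- least `k` with `A ≤ p k + i d` -/
def kap (p d A i : ℤ) : ℤ := -((i * d - A) / p)

/-- cut position between lines `i` and `i+1` -/
def cut (p d A i : ℤ) : ℤ := kap p d A (i + 1) + 1

/-- colour (before shifting) of line `i` at time `k` -/
def ff (g : ℤ) (s : ℤ → ℤ) (k i : ℤ) : ℤ :=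
  if i < g - 1 ∧ k < s i then i
  else if i = 0 ∨ k < s (i - 1) then g - 1 else i - 1

theorem kap_le_iff {p d A i k : ℤ} (hp : 0 < p) :
    kap p d A i ≤ k ↔ A ≤ p * k + i * d := by
  unfold kap
  rw [neg_le, Int.le_ediv_iff_mul_le hp]
  constructor
  · intro h; nlinarith
  · intro h; nlinarith

theorem kap_lower {p d A i : ℤ} (hp : 0 < p) : A - i * d ≤ p * kap p d A i := by
  have := (kap_le_iff (p := p) (d := d) (A := A) (i := i) (k := kap p d A i) hp).1 le_rfl
  linarith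

theorem kap_upper {p d A i : ℤ} (hp : 0 < p) : p * kap p d A i ≤ A - i * d + p - 1 := by
  have h : ¬ (kap p d A i ≤ kap p d A i - 1) := by omega
  rw [kap_le_iff hp] at h
  have : p * (kap p d A i - 1) = p * kap p d A i - p := by ring
  omega

theorem kap_gap {p d A i : ℤ} (hp : 0 < p) (hd : d = 2 * p + 1) :
    kap p d A (i + 1) + 2 ≤ kap p d A i := by
  have h1 := kap_lower (p := p) (d := d) (A := A) (i := i) hp
  have h2 : kap p d A (i + 1) ≤ kap p d A i - 2 := by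
    rw [kap_le_iff hp]
    have e1 : p * (kap p d A i - 2) = p * kap p d A i - 2 * p := by ring
    have e2 : (i + 1) * d = i * d + d := by ring
    rw [e1, e2]; omega
  omega

/-- abstract hypotheses on cut positions -/
def Gap (s : ℤ → ℤ) : Prop := ∀ i, s (i + 1) + 2 ≤ s i

theorem cut_gap {p d A : ℤ} (hp : 0 < p) (hd : d = 2 * p + 1) : Gap (cut p d A) := by
  intro i
  have := kap_gap (A := A) (i := i + 1) hp hd
  unfold cut; omega

theorem Gap.nat {s : ℤ → ℤ} (hs : Gap s) (i : ℤ) (m : ℕ) : s (i + m) + 2 * m ≤ s i := by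
  induction m with
  | zero => simp
  | succ m ih =>
    have := hs (i + m)
    have e : i + ((m + 1 : ℕ) : ℤ) = i + m + 1 := by push_cast; ring
    rw [e]; push_cast; omega

theorem Gap.le {s : ℤ → ℤ} (hs : Gap s) {i j : ℤ} (h : i ≤ j) : s j + 2 * (j - i) ≤ s i := by
  obtain ⟨m, hm⟩ := Int.eq_ofNat_of_zero_le (sub_nonneg.2 h)
  have := hs.nat i m
  have e : i + (m : ℤ) = j := by omega
  rw [e] at this; omega

theorem ff_range {g k i : ℤ} {s : ℤ → ℤ} (h0 : 0 ≤ i) (hg : i < g) :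
    0 ≤ ff g s k i ∧ ff g s k i < g := by
  unfold ff
  split_ifs with h1 h2 <;> omega

theorem ff_cases (g k i : ℤ) (s : ℤ → ℤ) :
    (i < g - 1 ∧ k < s i ∧ ff g s k i = i) ∨
    ((i < g - 1 → s i ≤ k) ∧ (i = 0 ∨ k < s (i - 1)) ∧ ff g s k i = g - 1) ∨
    ((i < g - 1 → s i ≤ k) ∧ i ≠ 0 ∧ s (i - 1) ≤ k ∧ ff g s k i = i - 1) := by
  unfold ff
  by_cases h1 : i < g - 1 ∧ k < s i
  · left; exact ⟨h1.1, h1.2, if_pos h1⟩
  · have h1' : i < g - 1 → s i ≤ k := fun h => not_lt.1 fun h' => h1 ⟨h, h'⟩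
    right
    rw [if_neg h1]
    by_cases h2 : i = 0 ∨ k < s (i - 1)
    · left; exact ⟨h1', h2, if_pos h2⟩
    · right
      rw [if_neg h2]
      push Not at h2
      exact ⟨h1', h2.1, h2.2, rfl⟩

theorem local_diag {g : ℤ} {s : ℤ → ℤ} (hs : Gap s) {k i k' i' : ℤ} (h0 : 0 ≤ i') (hi : i' < i)
    (hg : i < g) (hk : k' ≤ k) (h : ff g s k i = ff g s k' i') :
    i = i' + 1 ∧ s i' ≤ k ∧ k' < s i' := by
  rcases ff_cases g k i s with ⟨a1, a2, a3⟩ | ⟨a1, a2, a3⟩ | ⟨a1, a2, a3, a4⟩ <;>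
  rcases ff_cases g k' i' s with ⟨b1, b2, b3⟩ | ⟨b1, b2, b3⟩ | ⟨b1, b2, b3, b4⟩
  · omega
  · omega
  · omega
  · omega
  · exfalso
    have h9 := b1 (by omega)
    rcases a2 with a2 | a2
    · omega
    have := hs.le (i := i') (j := i - 1) (by omega)
    omega
  · omega
  · have e : i - 1 = i' := by omega
    subst e
    exact ⟨by omega, a3, b2⟩
  · omega
  · omega

theorem local_anti {g : ℤ} {s : ℤ → ℤ} (hs : Gap s) {k i k' i' : ℤ} (h0 : 0 ≤ i') (hi : i' < i)
    (hg : i < g) (hk : k' = k + (i - i')) (h : ff g s k i = ff g s k' i') :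
    i = i' + 1 ∧ k' = s i' := by
  rcases ff_cases g k i s with ⟨a1, a2, a3⟩ | ⟨a1, a2, a3⟩ | ⟨a1, a2, a3, a4⟩ <;>
  rcases ff_cases g k' i' s with ⟨b1, b2, b3⟩ | ⟨b1, b2, b3⟩ | ⟨b1, b2, b3, b4⟩
  · omega
  · omega
  · omega
  · omega
  · have h9 := b1 (by omega)
    rcases a2 with a2 | a2
    · omega
    have := hs.le (i := i') (j := i - 1) (by omega)
    have e : i = i' + 1 := by omega
    subst e
    have e2 : i' + 1 - 1 = i' := by ring
    rw [e2] at a2
    exact ⟨rfl, by omega⟩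
  · omega
  · exfalso
    have e : i - 1 = i' := by omega
    subst e
    omega
  · omega
  · omega

theorem ff_pre {g : ℤ} {s : ℤ → ℤ} (hs : Gap s) {k i : ℤ} (h0 : 0 ≤ i) (hg : i < g)
    (hk : k < s (g - 2)) : ff g s k i = i := by
  rcases ff_cases g k i s with ⟨a1, a2, a3⟩ | ⟨a1, a2, a3⟩ | ⟨a1, a2, a3, a4⟩
  · exact a3
  · by_cases h : i < g - 1
    · have := a1 h
      have := hs.le (i := i) (j := g - 2) (by omega)
      omega
    · omega
  · exfalso
    have := hs.le (i := i - 1) (j := g - 2) (by omega)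
    omega

theorem ff_post {g : ℤ} {s : ℤ → ℤ} (hs : Gap s) {k i : ℤ} (h0 : 0 ≤ i) (hg : i < g)
    (hk : s 0 ≤ k) : ff g s k i = i - 1 ∨ ff g s k i = i - 1 + g := by
  rcases ff_cases g k i s with ⟨a1, a2, a3⟩ | ⟨a1, a2, a3⟩ | ⟨a1, a2, a3, a4⟩
  · exfalso
    have := hs.le (i := 0) (j := i) (by omega)
    omega
  · rcases a2 with a2 | a2
    · right; omega
    · by_cases hi : i = 0
      · right; omega
      · exfalso
        have := hs.le (i := 0) (j := i - 1) (by omega)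
        omega
  · left; exact a4

end Pool.Agent.QueensAll
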