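import Pool.Agent.W_MP_5f6f90_h66.Local

set_option autoImplicit false

namespace Pool.Agent.QueensAll

/-- periodic extension of the colour: `phi (k + N) i = phi k i - 1` modulo `g` -/
def phi (g N B : ℤ) (s : ℤ → ℤ) (k i : ℤ) : ℤ :=
  (ff g s (B + (k - B) % N) i - (k - B) / N) % g

variable {g N B : ℤ} {s : ℤ → ℤ}

theorem phi_range (hg : 0 < g) (k i : ℤ) : 0 ≤ phi g N B s k i ∧ phi g N B s k i < g :=
  ⟨Int.emod_nonneg _ hg.ne', Int.emod_lt_of_pos _ hg⟩

theorem phi_shift (hN : 0 < N) (k i j : ℤ) :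
    phi g N B s (k + j * N) i = (phi g N B s k i - j) % g := by
  unfold phi
  have e : k + j * N - B = (k - B) + j * N := by ring
  have h1 : (k + j * N - B) % N = (k - B) % N := by
    rw [e, Int.add_mul_emod_self_right]
  have h2 : (k + j * N - B) / N = (k - B) / N + j := by
    rw [e, Int.add_mul_ediv_right _ _ hN.ne']
  rw [h1, h2, Int.emod_sub_emod]
  congr 1; ring

theorem eq_of_sub_emod {u v j : ℤ} (hu : 0 ≤ u ∧ u < g) (hv : 0 ≤ v ∧ v < g)
    (h : (u - j) % g = (v - j) % g) : u = v := by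
  have h1 : g ∣ (u - j) - (v - j) := Int.ModEq.dvd (a := v - j) (b := u - j) h.symm
  have h2 : g ∣ u - v := by
    have e : (u - j) - (v - j) = u - v := by ring
    rwa [e] at h1
  have := Int.eq_zero_of_abs_lt_dvd h2 (by rw [abs_lt]; constructor <;> omega)
  omega

theorem phi_eq_of_shift (hN : 0 < N) (hg : 0 < g) {k i k' i' j : ℤ}
    (h : phi g N B s (k + j * N) i = phi g N B s (k' + j * N) i') :
    phi g N B s k i = phi g N B s k' i' := by
  rw [phi_shift hN, phi_shift hN] at h
  exact eq_of_sub_emod (phi_range hg _ _) (phi_range hg _ _) h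

theorem phi_base {k i : ℤ} (h0 : 0 ≤ i) (hi : i < g) (h1 : B ≤ k) (h2 : k < B + N) :
    phi g N B s k i = ff g s k i := by
  unfold phi
  have e1 : (k - B) % N = k - B := Int.emod_eq_of_lt (by omega) (by omega)
  have e2 : (k - B) / N = 0 := Int.ediv_eq_zero_of_lt (by omega) (by omega)
  have e3 : B + (k - B) = k := by ring
  rw [e1, e2, e3, sub_zero]
  have := ff_range (s := s) (k := k) h0 hi
  exact Int.emod_eq_of_lt this.1 this.2

/-- decomposition of an integer along the period -/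
theorem exists_base (hN : 0 < N) (B k : ℤ) : ∃ j k0 : ℤ, k = k0 + j * N ∧ B ≤ k0 ∧ k0 < B + N := by
  refine ⟨(k - B) / N, B + (k - B) % N, ?_, ?_, ?_⟩
  · have := Int.emod_add_mul_ediv (k - B) N
    linarith [mul_comm N ((k - B) / N)]
  · have := Int.emod_nonneg (k - B) hN.ne'
    omega
  · have := Int.emod_lt_of_pos (k - B) hN
    omega

theorem phi_row (hs : Gap s) (hN : 0 < N) {k i i' : ℤ} (h0 : 0 ≤ i) (hi : i < g)
    (h0' : 0 ≤ i') (hi' : i' < g) (h : phi g N B s k i = phi g N B s k i') : i = i' := by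
  obtain ⟨j, k0, rfl, h1, h2⟩ := exists_base hN B k
  have h3 := phi_eq_of_shift hN (by omega) h
  rw [phi_base h0 hi h1 h2, phi_base h0' hi' h1 h2] at h3
  rcases lt_trichotomy i i' with hlt | heq | hgt
  · have := local_diag hs h0 hlt hi' le_rfl h3.symm
    omega
  · exact heq
  · have := local_diag hs h0' hgt hi le_rfl h3
    omega

/-- in the next period, before the window -/
theorem phi_next {i k : ℤ} (hs : Gap s) (hN : 0 < N) (h0 : 0 ≤ i) (hi : i < g)
    (h1 : B + N ≤ k) (h2 : k < s (g - 2) + N) (h3 : k < B + N + N) :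
    phi g N B s k i = (i - 1) % g := by
  have e : k = (k - N) + 1 * N := by ring
  rw [e, phi_shift hN, phi_base h0 hi (by omega) (by omega), ff_pre hs h0 hi (by omega)]

theorem phi_late {i k : ℤ} (hs : Gap s) (h0 : 0 ≤ i) (hi : i < g)
    (h1 : B ≤ k) (h2 : k < B + N) (h3 : s 0 ≤ k) :
    phi g N B s k i = (i - 1) % g := by
  rw [phi_base h0 hi h1 h2]
  have hr := ff_range (s := s) (k := k) h0 hi
  rcases ff_post hs h0 hi h3 with h | h
  · rw [h] at hr ⊢
    exact (Int.emod_eq_of_lt hr.1 hr.2).symm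
  · rw [h] at hr ⊢
    have : (i - 1 + g) % g = (i - 1) % g := by
      have := Int.add_mul_emod_self_right (i - 1) 1 g
      rwa [one_mul] at this
    rw [← this]
    exact (Int.emod_eq_of_lt hr.1 hr.2).symm

theorem diag_key {d : ℤ} (hs : Gap s) (hN : 0 < N) (hd : 0 < d)
    (hB1 : B + (g - 1) * d ≤ s (g - 2)) (hB2 : s 0 + (g - 1) * d ≤ B + N) (hBN : (g - 1) * d < N)
    {k i k' i' : ℤ} (h0 : 0 ≤ i') (hii : i' < i) (hi : i < g) (hk : k = k' + (i - i') * d)
    (h : phi g N B s k i = phi g N B s k' i') :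
    ∃ j, i = i' + 1 ∧ s i' ≤ k - j * N ∧ k' - j * N < s i' := by
  obtain ⟨j, k0, rfl, h1, h2⟩ := exists_base hN B k'
  refine ⟨j, ?_⟩
  have hm1 : 0 < (i - i') * d := mul_pos (by omega) hd
  have hm2 : (i - i') * d ≤ (g - 1) * d := mul_le_mul_of_nonneg_right (by omega) hd.le
  have e1 : k = (k0 + (i - i') * d) + j * N := by rw [hk]; ring
  rw [e1] at h
  have h3 := phi_eq_of_shift hN (by omega) h
  have e2 : k - j * N = k0 + (i - i') * d := by rw [e1]; ring
  have e3 : k0 + j * N - j * N = k0 := by ring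
  rw [e2, e3]
  by_cases hc : k0 + (i - i') * d < B + N
  · rw [phi_base (by omega) hi (by omega) hc, phi_base h0 (by omega) h1 h2] at h3
    exact local_diag hs h0 hii hi (by omega) h3
  · exfalso
    rw [phi_next hs hN (by omega) hi (by omega) (by omega) (by omega),
      phi_late hs h0 (by omega) h1 h2 (by omega)] at h3
    have h4 : g ∣ (i - 1) - (i' - 1) := Int.ModEq.dvd (a := i' - 1) (b := i - 1) h3.symm
    have h5 : (i - 1) - (i' - 1) = i - i' := by ring
    rw [h5] at h4
    have := Int.le_of_dvd (by omega) h4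
    omega

theorem anti_key {d : ℤ} (hs : Gap s) (hN : 0 < N) (hd : 0 < d)
    (hB1 : B + (g - 1) * d ≤ s (g - 2)) (hB2 : s 0 + (g - 1) * d ≤ B + N) (hBN : (g - 1) * d < N)
    {k i k' i' : ℤ} (h0 : 0 ≤ i') (hii : i' < i) (hi : i < g) (hk : k' = k + (i - i'))
    (h : phi g N B s k i = phi g N B s k' i') :
    ∃ j, i = i' + 1 ∧ k' - j * N = s i' := by
  obtain ⟨j, k0, rfl, h1, h2⟩ := exists_base hN B k
  refine ⟨j, ?_⟩
  have hm2 : (i - i') ≤ (g - 1) * d := by nlinarith
  have e1 : k' = (k0 + (i - i')) + j * N := by rw [hk]; ring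
  rw [e1] at h
  have h3 := phi_eq_of_shift hN (by omega) h
  have e2 : k' - j * N = k0 + (i - i') := by rw [e1]; ring
  rw [e2]
  by_cases hc : k0 + (i - i') < B + N
  · rw [phi_base (by omega) hi h1 h2, phi_base h0 (by omega) (by omega) hc] at h3
    exact local_anti hs h0 hii hi rfl h3
  · exfalso
    rw [phi_late hs (by omega) hi h1 h2 (by omega),
      phi_next hs hN h0 (by omega) (by omega) (by omega) (by omega)] at h3
    have h4 : g ∣ (i - 1) - (i' - 1) := Int.ModEq.dvd (a := i' - 1) (b := i - 1) h3.symm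
    have h5 : (i - 1) - (i' - 1) = i - i' := by ring
    rw [h5] at h4
    have := Int.le_of_dvd (by omega) h4
    omega

end Pool.Agent.QueensAll
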