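import Pool.Agent.W_MP_5f6f90_h66.Periodic

set_option autoImplicit false

namespace Pool.Agent.QueensAll

/-- the numerical data of the construction -/
structure Dat where
  p : ℤ
  q : ℤ
  d : ℤ
  g : ℤ
  r : ℤ
  N : ℤ
  n : ℤ
  hp : 0 < p
  hq : q = p + 1
  hd : d = 2 * p + 1
  hg : 0 < g
  hr : 2 ≤ r
  hpr : p = g * r
  hn : n = N * g
  hN : q * (g * d + 3 * (p * d)) ≤ N

namespace Dat

variable (D : Dat)

theorem q_pos : 0 < D.q := by have := D.hp; have := D.hq; omega

theorem d_pos : 0 < D.d := by have := D.hp; have := D.hd; omega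

theorem gd_pos : 0 < D.g * D.d := mul_pos D.hg D.d_pos

theorem pd_pos : 0 < D.p * D.d := mul_pos D.hp D.d_pos

theorem N_big : D.g * D.d + 3 * (D.p * D.d) ≤ D.N := by
  have h1 := D.q_pos
  have h2 := D.gd_pos
  have h3 := D.pd_pos
  have h4 := D.hN
  nlinarith

theorem N_pos : 0 < D.N := by
  have := D.N_big; have := D.gd_pos; have := D.pd_pos; omega

theorem n_pos : 0 < D.n := by
  rw [D.hn]; exact mul_pos D.N_pos D.hg

/-- cut positions for the level `a` and the line `c` -/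
def s (c a : ℤ) : ℤ → ℤ := cut D.p D.d (a * D.n - c)

theorem s_gap (c a : ℤ) : Gap (D.s c a) := cut_gap D.hp D.hd

/-- no wrap of the first coordinate near the window -/
def NX (c a : ℤ) : Prop :=
  (D.q * (D.s c a (D.g - 2) - D.d)) / D.N = (D.q * (D.s c a 0 + D.d)) / D.N

theorem xfloor {c a : ℤ} (h : D.NX c a) {k1 k2 j : ℤ}
    (h1 : D.s c a (D.g - 2) - D.d ≤ k1) (h2 : k1 ≤ D.s c a 0 + D.d)
    (h3 : D.s c a (D.g - 2) - D.d ≤ k2) (h4 : k2 ≤ D.s c a 0 + D.d) :
    (D.q * (k1 + j * D.N)) / D.n = (D.q * (k2 + j * D.N)) / D.n := by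
  have key : ∀ k, D.s c a (D.g - 2) - D.d ≤ k → k ≤ D.s c a 0 + D.d →
      (D.q * (k + j * D.N)) / D.n = ((D.q * (D.s c a 0 + D.d)) / D.N + D.q * j) / D.g := by
    intro k hk1 hk2
    have e : D.q * (k + j * D.N) = D.q * k + (D.q * j) * D.N := by ring
    rw [D.hn, ← Int.ediv_ediv_of_nonneg D.N_pos.le, e, Int.add_mul_ediv_right _ _ D.N_pos.ne']
    have m1 : (D.q * (D.s c a (D.g - 2) - D.d)) / D.N ≤ (D.q * k) / D.N :=
      Int.ediv_le_ediv D.N_pos (mul_le_mul_of_nonneg_left hk1 D.q_pos.le)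
    have m2 : (D.q * k) / D.N ≤ (D.q * (D.s c a 0 + D.d)) / D.N :=
      Int.ediv_le_ediv D.N_pos (mul_le_mul_of_nonneg_left hk2 D.q_pos.le)
    have h' := h
    unfold NX at h'
    rw [h'] at m1
    rw [le_antisymm m2 m1]
  rw [key k1 h1 h2, key k2 h3 h4]

/-- start of the period -/
def B (c a : ℤ) : ℤ := D.s c a (D.g - 2) - (D.g - 1) * D.d

theorem hB1 (c a : ℤ) : D.B c a + (D.g - 1) * D.d ≤ D.s c a (D.g - 2) := by
  unfold B; omega

theorem kap_diff (c a : ℤ) (hg : 2 ≤ D.g) :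
    D.s c a 0 - D.s c a (D.g - 2) ≤ (D.g - 2) * D.d + D.p - 1 := by
  have h1 := kap_upper (p := D.p) (d := D.d) (A := a * D.n - c) (i := 1) D.hp
  have h2 := kap_lower (p := D.p) (d := D.d) (A := a * D.n - c) (i := D.g - 1) D.hp
  have h3 := (D.s_gap c a).le (i := 0) (j := D.g - 2) (by omega)
  have e0 : D.s c a 0 = kap D.p D.d (a * D.n - c) 1 + 1 := by
    unfold s cut; norm_num
  have e1 : D.s c a (D.g - 2) = kap D.p D.d (a * D.n - c) (D.g - 1) + 1 := by
    unfold s cut; congr 2; ring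
  have hp := D.hp
  have h4 : 0 ≤ D.s c a 0 - D.s c a (D.g - 2) := by omega
  have h5 : D.p * (D.s c a 0 - D.s c a (D.g - 2)) ≤ (D.g - 2) * D.d + D.p - 1 := by
    rw [e0, e1]
    nlinarith
  nlinarith

theorem hB2 (c a : ℤ) : D.s c a 0 + (D.g - 1) * D.d ≤ D.B c a + D.N := by
  have h1 := D.N_big
  have h2 := D.gd_pos
  have h3 := D.pd_pos
  have h5 := D.hp
  have h6 := D.d_pos
  have h9 := D.hg
  have h8 : D.g ≤ D.p := by
    have := D.hpr; have := D.hr; nlinarith
  unfold B
  by_cases hg : 2 ≤ D.g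
  · have h4 := D.kap_diff c a hg
    have h7 : D.p ≤ D.p * D.d := by nlinarith
    have h10 : D.g * D.d ≤ D.p * D.d := mul_le_mul_of_nonneg_right h8 h6.le
    nlinarith
  · have hg1 : D.g = 1 := by omega
    have := (D.s_gap c a) (-1)
    rw [hg1] at h1 ⊢
    norm_num at this ⊢
    nlinarith

theorem hBN : (D.g - 1) * D.d < D.N := by
  have h1 := D.N_big
  have h3 := D.pd_pos
  have h6 := D.d_pos
  nlinarith

/-- the colour function of the block `c` -/
def ph (c a k i : ℤ) : ℤ := phi D.g D.N (D.B c a) (D.s c a) k i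

theorem yfloor {c a i i' k k' j : ℤ} (h1 : a * D.n ≤ D.p * k + c + i * D.d)
    (h2 : D.p * k' + c + i' * D.d < a * D.n) :
    (D.p * (k' + j * D.N) + c + i' * D.d) / D.n < (D.p * (k + j * D.N) + c + i * D.d) / D.n := by
  have e : D.p * (j * D.N) = (D.r * j) * D.n := by rw [D.hpr, D.hn]; ring
  have hn := D.n_pos
  have a1 : a + D.r * j ≤ (D.p * (k + j * D.N) + c + i * D.d) / D.n := by
    rw [Int.le_ediv_iff_mul_le hn]
    nlinarith
  have a2 : (D.p * (k' + j * D.N) + c + i' * D.d) / D.n < a + D.r * j := by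
    rw [Int.ediv_lt_iff_lt_mul hn]
    nlinarith
  omega

theorem diag_conflict {c a : ℤ} (h : D.NX c a) {K K' i i' : ℤ} (h0 : 0 ≤ i') (hii : i' < i)
    (hi : i < D.g) (hK : K = K' + (i - i') * D.d) (hph : D.ph c a K i = D.ph c a K' i') :
    (D.q * K) % D.n - (D.p * K + c + i * D.d) % D.n ≠
      (D.q * K') % D.n - (D.p * K' + c + i' * D.d) % D.n := by
  obtain ⟨j, hj1, hj2, hj3⟩ := diag_key (D.s_gap c a) D.N_pos D.d_pos (D.hB1 c a) (D.hB2 c a)
    D.hBN h0 hii hi hK hph
  subst hj1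
  have hd := D.d_pos
  have hn := D.n_pos
  have e3 : (i' + 1 - i') * D.d = D.d := by ring
  rw [e3] at hK
  obtain ⟨k0, rfl⟩ : ∃ k0, K' = k0 + j * D.N := ⟨K' - j * D.N, by ring⟩
  have e1 : K = (k0 + D.d) + j * D.N := by rw [hK]; ring
  subst e1
  clear hK
  have e4 : k0 + D.d + j * D.N - j * D.N = k0 + D.d := by ring
  have e5 : k0 + j * D.N - j * D.N = k0 := by ring
  rw [e4] at hj2
  rw [e5] at hj3
  have g1 := (D.s_gap c a).le (i := i') (j := D.g - 2) (by omega)
  have g2 := (D.s_gap c a).le (i := 0) (j := i') (by omega)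
  have X := D.xfloor h (k1 := k0 + D.d) (k2 := k0) (j := j) (by omega) (by omega) (by omega)
    (by omega)
  have s1 : D.s c a i' = kap D.p D.d (a * D.n - c) (i' + 1) + 1 := rfl
  have s2 := kap_gap (p := D.p) (d := D.d) (A := a * D.n - c) (i := i') D.hp D.hd
  have y1 : a * D.n ≤ D.p * (k0 + D.d) + c + (i' + 1) * D.d := by
    have := (kap_le_iff (p := D.p) (d := D.d) (A := a * D.n - c) (i := i' + 1)
      (k := k0 + D.d) D.hp).1 (by omega)
    linarith
  have y2 : D.p * k0 + c + i' * D.d < a * D.n := by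
    have : ¬ (kap D.p D.d (a * D.n - c) i' ≤ k0) := by omega
    rw [kap_le_iff D.hp] at this
    linarith
  have Y := D.yfloor (j := j) y1 y2
  intro hc
  rw [Int.emod_def, Int.emod_def, Int.emod_def, Int.emod_def, X] at hc
  have hq := D.hq
  set u := (D.p * (k0 + D.d + j * D.N) + c + (i' + 1) * D.d) / D.n
  set v := (D.p * (k0 + j * D.N) + c + i' * D.d) / D.n
  have : D.n * (u - v) = 0 := by
    rw [hq] at hc
    linear_combination hc
  have h7 : 0 < D.n * (u - v) := mul_pos hn (by omega)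
  omega

theorem anti_conflict {c a : ℤ} (h : D.NX c a) {K K' i i' : ℤ} (h0 : 0 ≤ i') (hii : i' < i)
    (hi : i < D.g) (hK : K' = K + (i - i')) (hph : D.ph c a K i = D.ph c a K' i') :
    (D.q * K) % D.n + (D.p * K + c + i * D.d) % D.n ≠
      (D.q * K') % D.n + (D.p * K' + c + i' * D.d) % D.n := by
  obtain ⟨j, hj1, hj2⟩ := anti_key (D.s_gap c a) D.N_pos D.d_pos (D.hB1 c a) (D.hB2 c a)
    D.hBN h0 hii hi hK hph
  subst hj1
  have hd := D.d_pos
  have hn := D.n_pos
  have e3 : (i' + 1 - i') = (1 : ℤ) := by ring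
  rw [e3] at hK
  obtain ⟨k0, rfl⟩ : ∃ k0, K = k0 + j * D.N := ⟨K - j * D.N, by ring⟩
  have e1 : K' = (k0 + 1) + j * D.N := by rw [hK]; ring
  subst e1
  clear hK
  have e4 : k0 + 1 + j * D.N - j * D.N = k0 + 1 := by ring
  rw [e4] at hj2
  have g1 := (D.s_gap c a).le (i := i') (j := D.g - 2) (by omega)
  have g2 := (D.s_gap c a).le (i := 0) (j := i') (by omega)
  have X := D.xfloor h (k1 := k0) (k2 := k0 + 1) (j := j) (by omega) (by omega) (by omega)
    (by omega)
  have s1 : D.s c a i' = kap D.p D.d (a * D.n - c) (i' + 1) + 1 := rfl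
  have s2 := kap_gap (p := D.p) (d := D.d) (A := a * D.n - c) (i := i') D.hp D.hd
  have y1 : a * D.n ≤ D.p * k0 + c + (i' + 1) * D.d := by
    have := (kap_le_iff (p := D.p) (d := D.d) (A := a * D.n - c) (i := i' + 1)
      (k := k0) D.hp).1 (by omega)
    linarith
  have y2 : D.p * (k0 + 1) + c + i' * D.d < a * D.n := by
    have : ¬ (kap D.p D.d (a * D.n - c) i' ≤ k0 + 1) := by omega
    rw [kap_le_iff D.hp] at this
    linarith
  have Y := D.yfloor (j := j) y1 y2
  intro hc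
  rw [Int.emod_def, Int.emod_def, Int.emod_def, Int.emod_def, X] at hc
  have hq := D.hq
  have hdd := D.hd
  set u := (D.p * (k0 + j * D.N) + c + (i' + 1) * D.d) / D.n
  set v := (D.p * (k0 + 1 + j * D.N) + c + i' * D.d) / D.n
  have : D.n * (u - v) = 0 := by
    rw [hq, hdd] at hc
    linear_combination -hc
  have h7 : 0 < D.n * (u - v) := mul_pos hn (by omega)
  omega

/-- one of the two levels `a = 0, 1` is good -/
theorem exists_level (c : ℤ) : D.NX c 0 ∨ D.NX c 1 := by
  by_contra hcon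
  rw [not_or] at hcon
  have hp := D.hp
  have hq := D.q_pos
  have hN := D.N_pos
  have key : ∀ a, ¬ D.NX c a → ∃ e : ℤ,
      D.q * (a * D.n - c - (D.g - 1) * D.d + D.p - D.p * D.d) < D.p * (e * D.N) ∧
      D.p * (e * D.N) ≤ D.q * (a * D.n - c - D.d + 2 * D.p - 1 + D.p * D.d) := by
    intro a ha
    have h1 := kap_upper (p := D.p) (d := D.d) (A := a * D.n - c) (i := 1) D.hp
    have h2 := kap_lower (p := D.p) (d := D.d) (A := a * D.n - c) (i := D.g - 1) D.hp
    have e0 : D.s c a 0 = kap D.p D.d (a * D.n - c) 1 + 1 := by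
      unfold s cut; norm_num
    have e1 : D.s c a (D.g - 2) = kap D.p D.d (a * D.n - c) (D.g - 1) + 1 := by
      unfold s cut; congr 2; ring
    by_cases hle : D.s c a (D.g - 2) - D.d ≤ D.s c a 0 + D.d
    · have m : (D.q * (D.s c a (D.g - 2) - D.d)) / D.N ≤ (D.q * (D.s c a 0 + D.d)) / D.N :=
        Int.ediv_le_ediv hN (mul_le_mul_of_nonneg_left hle hq.le)
      have hlt := lt_of_le_of_ne m ha
      refine ⟨(D.q * (D.s c a 0 + D.d)) / D.N, ?_, ?_⟩
      · rw [Int.ediv_lt_iff_lt_mul hN] at hlt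
        have := mul_lt_mul_of_pos_left hlt hp
        refine lt_of_le_of_lt ?_ this
        rw [e1]
        nlinarith
      · have := Int.ediv_mul_le (D.q * (D.s c a 0 + D.d)) hN.ne'
        have := mul_le_mul_of_nonneg_left this hp.le
        refine this.trans ?_
        rw [e0]
        nlinarith
    · exfalso
      have hg := D.hg
      by_cases h2g : 2 ≤ D.g
      · have := (D.s_gap c a).le (i := 0) (j := D.g - 2) (by omega)
        have := D.d_pos
        omega
      · have hg1 : D.g = 1 := by omega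
        have hd := D.hd
        have h3 := kap_upper (p := D.p) (d := D.d) (A := a * D.n - c) (i := 0) D.hp
        have h4 := kap_lower (p := D.p) (d := D.d) (A := a * D.n - c) (i := 1) D.hp
        rw [e0, e1, hg1] at hle
        norm_num at hle
        nlinarith
  obtain ⟨e0, a1, a2⟩ := key 0 hcon.1
  obtain ⟨e1, b1, b2⟩ := key 1 hcon.2
  have hbig := D.hN
  have hpd := D.pd_pos
  have hgd := D.gd_pos
  have hd := D.hd
  have hn := D.hn
  have hpr := D.hpr
  have hg := D.hg
  have hr := D.hr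
  have hqq := D.hq
  have hdp := D.d_pos
  set m : ℤ := D.p * (e1 - e0) - D.q * D.g with hm
  have c1 : m * D.N < D.q * (D.g * D.d + 3 * (D.p * D.d)) := by
    have : m * D.N = D.p * (e1 * D.N) - D.p * (e0 * D.N) - D.q * D.n := by
      rw [hm, hn]; ring
    rw [this]
    nlinarith
  have c2 : -(D.q * (D.g * D.d + 3 * (D.p * D.d))) < m * D.N := by
    have : m * D.N = D.p * (e1 * D.N) - D.p * (e0 * D.N) - D.q * D.n := by
      rw [hm, hn]; ring
    rw [this]
    nlinarith
  have c3 : m * D.N < 1 * D.N := by omega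
  have c4 : (-1) * D.N < m * D.N := by omega
  have c5 := lt_of_mul_lt_mul_right c3 hN.le
  have c6 := lt_of_mul_lt_mul_right c4 hN.le
  have c7 : m = 0 := by omega
  have c8 : D.g * (D.r * (e1 - e0) - D.q) = 0 := by
    rw [hm, hpr] at c7
    linear_combination c7
  have c9 : D.r * (e1 - e0) - D.q = 0 := by
    rcases mul_eq_zero.1 c8 with h | h
    · omega
    · exact h
  have c10 : D.r * (e1 - e0 - D.g) = 1 := by
    rw [hqq, hpr] at c9
    linear_combination c9
  have c11 : D.r ∣ 1 := ⟨_, c10.symm⟩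
  have := Int.le_of_dvd one_pos c11
  omega

end Dat

end Pool.Agent.QueensAll
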